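import Pool.Agent.Helper27.KP.CIO

/-!
Packet KP-CRS: the number of crossings of the diagram of a circuit.
-/

set_option autoImplicit false

namespace Pool.Agent.Helper63.KP

open Pool.Agent.Helper50.KP

theorem cr_append (u v : Word) : crossings (u ++ v) = crossings u + crossings v := by
  simp only [crossings, List.countP_append]

theorem cr_cup (k : ℕ) (w : Word) : crossings ((.cup, k) :: w) = crossings w := by
  simp [crossings]

theorem cr_cap (k : ℕ) (w : Word) : crossings ((.cap, k) :: w) = crossings w := by
  simp [crossings]

theorem cr_X (s : Bool) (k : ℕ) (w : Word) : crossings ((.X s, k) :: w) = crossings w + 1 := by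
  simp [crossings]

theorem cr_nil : crossings [] = 0 := rfl

theorem cr_low (p : ℕ) : ∀ (P : Prog) (c : ℕ), crossings (low p c P) ≤ 2 * P.length
  | [], c => by cases c <;> simp [low, cr_nil]
  | .D s :: P, c => by
    have h := cr_low p P (c + 1)
    simp only [low, cr_X, List.length_cons]
    omega
  | .U s :: P, c + 1 => by
    have h := cr_low p P c
    simp only [low, cr_X, List.length_cons]
    omega
  | .U s :: P, 0 => by
    simp only [low, cr_nil]
    omega

theorem inv_length (P : Prog) : (inv P).length = P.length := by
  simp [inv]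

theorem cr_col (i : ℕ) (E : Prog) : crossings (col i E) ≤ 4 * E.length := by
  have h1 := cr_low (4 * i + 1) E 0
  have h2 := cr_low (4 * i + 3) (inv E) 0
  rw [inv_length] at h2
  have h3 : crossings (col i E) =
      crossings (low (4 * i + 1) 0 E) + crossings (low (4 * i + 3) 0 (inv E)) := by
    show crossings (((.cup, 4 * i) :: low (4 * i + 1) 0 E) ++
      ((.cup, 4 * i + 2) :: low (4 * i + 3) 0 (inv E))) = _
    rw [cr_append, cr_cup, cr_cup]
  omega

theorem cr_cols (B : ℕ) : ∀ (Es : List Prog) (i : ℕ), (∀ E ∈ Es, E.length ≤ B) →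
    crossings (cols i Es) ≤ Es.length * (4 * B)
  | [], i, _ => by simp [cols, cr_nil]
  | E :: Es, i, h => by
    have h1 := cr_col i E
    have h2 := cr_cols B Es (i + 1) (fun F hF => h F (List.mem_cons_of_mem _ hF))
    have h3 := h E List.mem_cons_self
    have h4 : (Es.length + 1) * (4 * B) = Es.length * (4 * B) + 4 * B := by ring
    simp only [cols, cr_append, List.length_cons, h4]
    generalize Es.length * (4 * B) = t at *
    omega

theorem cr_base (n : ℕ) : crossings (base n) = 0 := by
  rw [base, cr_cup]
  generalize 2 * n = k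
  induction k with
  | zero => rfl
  | succ k ih => rw [List.replicate_succ, cr_cup, ih]

theorem cr_nest : ∀ k : ℕ, crossings (nest k) = 0
  | 0 => rfl
  | k + 1 => by rw [nest, cr_cap, cr_nest k]

theorem hook_length (k m : ℕ) : (hook k m).length = 2 * k + 4 * m + 8 := by
  simp only [hook, List.length_append, List.length_replicate, List.length_cons, List.length_nil]
  omega

theorem prog_length (n : ℕ) : ∀ (ps : List (ℕ × ℕ)),
    (∀ e ∈ ps, e.1 < n ∧ e.2 < n ∧ e.1 ≠ e.2) → (prog n ps).length ≤ ps.length * (8 * n)
  | [], _ => by simp [prog]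
  | e :: ps, h => by
    have h1 := prog_length n ps (fun f hf => h f (List.mem_cons_of_mem _ hf))
    have h2 := h e List.mem_cons_self
    have h3 : (prog n (e :: ps)).length =
        (hook (2 * (n - 1 - max e.1 e.2)) (2 * (max e.1 e.2 - min e.1 e.2) - 1)).length +
          (prog n ps).length := by
      simp only [prog, List.map_cons, List.flatten_cons, List.length_append]
    have h4 : (ps.length + 1) * (8 * n) = ps.length * (8 * n) + 8 * n := by ring
    rw [h3, hook_length, List.length_cons, h4]
    obtain ⟨ha, hb, hab⟩ := h2
    generalize ps.length * (8 * n) = t at *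
    rcases le_total e.1 e.2 with hle | hle
    · rw [max_eq_right hle, min_eq_left hle]
      omega
    · rw [max_eq_left hle, min_eq_right hle]
      omega

theorem pairs_length (m : ℕ) (x : ℕ → Bool) (b : Bool) (g : Gate) :
    (pairs m x b g).length ≤ 3 := by
  cases g with
  | inp l =>
    simp only [pairs]
    split_ifs <;> simp
  | nand j k =>
    simp only [pairs]
    split_ifs <;> simp

theorem gCRS : CRS := by
  intro m C x hC
  have hok := Pool.Agent.Helper27.KP.gCIO m C x hC
  have hE : ∀ E ∈ (List.range (4 * m)).map fun v => prog (4 * m)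
      (pairs m x (decide (v % 4 < 2)) (C (v / 4))), E.length ≤ 96 * m := by
    intro E hE
    rw [List.mem_map] at hE
    obtain ⟨v, hv, rfl⟩ := hE
    rw [List.mem_range] at hv
    have h1 := prog_length (4 * m) (pairs m x (decide (v % 4 < 2)) (C (v / 4))) (hok v hv)
    have h2 := pairs_length m x (decide (v % 4 < 2)) (C (v / 4))
    have h3 : (pairs m x (decide (v % 4 < 2)) (C (v / 4))).length * (8 * (4 * m)) ≤
        3 * (8 * (4 * m)) := Nat.mul_le_mul_right _ h2
    omega
  have h4 := cr_cols (96 * m) _ 0 hE
  rw [List.length_map, List.length_range] at h4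
  have h5 : crossings (knot m C x) = crossings (cols 0 ((List.range (4 * m)).map fun v =>
      prog (4 * m) (pairs m x (decide (v % 4 < 2)) (C (v / 4))))) := by
    show crossings (dia _) = _
    rw [dia, cr_append, cr_append, cr_append, cr_base, cr_nest, cr_cap, cr_nil]
    simp
  rw [h5]
  refine h4.trans (le_of_eq ?_)
  ring

end Pool.Agent.Helper63.KP
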